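import Pool.Agent.W964.Si.Defs

/-!
# Cell probe algorithms over arbitrary finite types of addresses and contents
-/

set_option autoImplicit false

namespace Pool.Agent.Q84.SI

open Pool.Agent.W964.Si

/-- Query algorithms with addresses in `A` and contents in `V`. -/
inductive GAlg (A V O : Type) : Type
  | answer (o : O) : GAlg A V O
  | probe (a : A) (next : V → GAlg A V O) : GAlg A V O

namespace GAlg

variable {A V O O' : Type}

def out (mem : A → V) : GAlg A V O → O
  | answer o => o
  | probe a next => (next (mem a)).out mem

def probes (mem : A → V) : GAlg A V O → ℕ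
  | answer _ => 0
  | probe a next => (next (mem a)).probes mem + 1

def bind : GAlg A V O → (O → GAlg A V O') → GAlg A V O'
  | answer o, f => f o
  | probe a next, f => probe a (fun v => (next v).bind f)

theorem out_bind (mem : A → V) (a : GAlg A V O) (f : O → GAlg A V O') :
    (a.bind f).out mem = (f (a.out mem)).out mem := by
  induction a with
  | answer o => rfl
  | probe a next ih => exact ih (mem a)

theorem probes_bind (mem : A → V) (a : GAlg A V O) (f : O → GAlg A V O') :
    (a.bind f).probes mem = a.probes mem + (f (a.out mem)).probes mem := by
  induction a with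
  | answer o => simp [bind, probes, out]
  | probe a next ih =>
    have := ih (mem a)
    simp only [bind, probes, out]
    rw [this]
    omega

/-- Run the algorithms one after the other and take the union of their answers. -/
def unionL {X : Type} [DecidableEq X] : List (GAlg A V (Finset X)) → GAlg A V (Finset X)
  | [] => answer ∅
  | a :: l => a.bind fun s => (unionL l).bind fun t => answer (s ∪ t)

theorem mem_unionL {X : Type} [DecidableEq X] (mem : A → V) (l : List (GAlg A V (Finset X)))
    (x : X) : x ∈ (unionL l).out mem ↔ ∃ a ∈ l, x ∈ a.out mem := by
  induction l with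
  | nil => simp [unionL, out]
  | cons a l ih =>
    simp only [unionL, out_bind, out, Finset.mem_union, ih, List.mem_cons, exists_eq_or_imp]

theorem probes_unionL {X : Type} [DecidableEq X] (mem : A → V)
    (l : List (GAlg A V (Finset X))) :
    (unionL l).probes mem = (l.map (fun a => a.probes mem)).sum := by
  induction l with
  | nil => simp [unionL, probes]
  | cons a l ih =>
    simp only [unionL, probes_bind, probes, ih, List.map_cons, List.sum_cons]
    omega

/-- Transport to the model with cells `Fin S` and contents `Fin W`. -/
def toAlg {S W : ℕ} (eA : A ≃ Fin S) (eV : V ≃ Fin W) : GAlg A V O → Alg S W O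
  | answer o => Alg.answer o
  | probe a next => Alg.probe (eA a) (fun x => (next (eV.symm x)).toAlg eA eV)

theorem out_toAlg {S W : ℕ} (eA : A ≃ Fin S) (eV : V ≃ Fin W) (mem : A → V)
    (a : GAlg A V O) :
    (a.toAlg eA eV).out (fun c => eV (mem (eA.symm c))) = a.out mem := by
  induction a with
  | answer o => rfl
  | probe a next ih => simp [toAlg, Alg.out, out, ih]

theorem probes_toAlg {S W : ℕ} (eA : A ≃ Fin S) (eV : V ≃ Fin W) (mem : A → V)
    (a : GAlg A V O) :
    (a.toAlg eA eV).probes (fun c => eV (mem (eA.symm c))) = a.probes mem := by
  induction a with
  | answer o => rfl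
  | probe a next ih => simp [toAlg, Alg.probes, probes, ih]

/-- Run an algorithm on a part of the memory. -/
def lift {S W : ℕ} (addr : Fin S → A) (val : V → Option (Fin W)) (dflt : O) :
    Alg S W O → GAlg A V O
  | Alg.answer o => answer o
  | Alg.probe c next => probe (addr c) (fun v => match val v with
    | some x => lift addr val dflt (next x)
    | none => answer dflt)

theorem out_lift {S W : ℕ} (addr : Fin S → A) (val : V → Option (Fin W)) (dflt : O)
    (mem : A → V) (mb : Fin S → Fin W) (hm : ∀ c, val (mem (addr c)) = some (mb c))
    (a : Alg S W O) : (lift addr val dflt a).out mem = a.out mb := by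
  induction a with
  | answer o => rfl
  | probe c next ih => simp only [lift, out, hm, Alg.out]; exact ih (mb c)

theorem probes_lift {S W : ℕ} (addr : Fin S → A) (val : V → Option (Fin W)) (dflt : O)
    (mem : A → V) (mb : Fin S → Fin W) (hm : ∀ c, val (mem (addr c)) = some (mb c))
    (a : Alg S W O) : (lift addr val dflt a).probes mem = a.probes mb := by
  induction a with
  | answer o => rfl
  | probe c next ih => simp only [lift, probes, hm, Alg.probes]; rw [ih (mb c)]

end GAlg

end Pool.Agent.Q84.SI
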