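import Pool.Agent.Q84.SI.Spec

/-!
# Asymptotics
-/

set_option autoImplicit false

namespace Pool.Agent.Q84.SI

open Pool.Agent.W964.Si Filter

/-- The parameters of the block construction. -/
theorem params {δ : ℝ} (h0 : 0 < δ) (h1 : δ < 1) (n : ℕ) (hn : 2 ≤ n) (T : ℝ) (hT : 1 ≤ T)
    (hTn : T ≤ (n : ℝ) ^ (1 - δ)) :
    ∃ B : ℕ, 0 < B ∧ (B : ℝ) * T ≤ 6 * ((B * (n / 2) : ℕ) : ℝ) ^ (1 - δ) ∧
      ((B * (n / 2) : ℕ) : ℝ) ^ (1 - δ) ≤ B * T ∧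
      ((B * (n / 2) : ℕ) : ℝ) ≤ (n : ℝ) ^ (1 / δ) := by
  have hn0 : (0 : ℝ) < n := by exact_mod_cast (by omega : 0 < n)
  have hT0 : 0 < T := by linarith
  set y : ℝ := (n : ℝ) ^ (1 - δ) / T with hy
  have hy1 : 1 ≤ y := by rw [hy, le_div_iff₀ hT0]; linarith
  have hy0 : 0 < y := by linarith
  set x : ℝ := y ^ (1 / δ) with hx
  have hx1 : 1 ≤ x := Real.one_le_rpow hy1 (by positivity)
  have hx0 : 0 < x := by linarith
  have hxδ : x ^ δ = y := by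
    rw [hx, ← Real.rpow_mul hy0.le, one_div, inv_mul_cancel₀ h0.ne', Real.rpow_one]
  have hyT : y * T = (n : ℝ) ^ (1 - δ) := by rw [hy]; field_simp
  set B : ℕ := ⌈x⌉₊ with hB
  have hB0 : 0 < B := Nat.ceil_pos.2 hx0
  have hBx : x ≤ B := Nat.le_ceil x
  have hBx2 : (B : ℝ) ≤ 2 * x := by
    have := Nat.ceil_lt_add_one hx0.le
    rw [← hB] at this
    linarith
  have hBr : (0 : ℝ) < B := by exact_mod_cast hB0
  set h : ℕ := n / 2 with hh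
  have hh3 : n ≤ 3 * h := by omega
  have hh2 : 2 * h ≤ n := by omega
  have hh3' : (n : ℝ) ≤ 3 * h := by exact_mod_cast hh3
  have hh2' : 2 * (h : ℝ) ≤ n := by exact_mod_cast hh2
  have hhr : (0 : ℝ) < h := by linarith
  have h1δ : 0 < 1 - δ := by linarith
  have e1 : ((B * h : ℕ) : ℝ) ^ (1 - δ) = (B : ℝ) ^ (1 - δ) * (h : ℝ) ^ (1 - δ) := by
    rw [Nat.cast_mul, Real.mul_rpow hBr.le hhr.le]
  have e2 : (B : ℝ) = (B : ℝ) ^ (1 - δ) * (B : ℝ) ^ δ := by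
    rw [← Real.rpow_add hBr]; simp
  have hBp : (0 : ℝ) < (B : ℝ) ^ (1 - δ) := Real.rpow_pos_of_pos hBr _
  refine ⟨B, hB0, ?_, ?_, ?_⟩
  · have h2 : (B : ℝ) ^ δ ≤ 2 * y := by
      calc (B : ℝ) ^ δ ≤ (2 * x) ^ δ := Real.rpow_le_rpow hBr.le hBx2 h0.le
        _ = 2 ^ δ * y := by rw [Real.mul_rpow (by norm_num) hx0.le, hxδ]
        _ ≤ 2 ^ (1 : ℝ) * y := by
          apply mul_le_mul_of_nonneg_right _ hy0.le
          exact Real.rpow_le_rpow_of_exponent_le (by norm_num) h1.le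
        _ = 2 * y := by rw [Real.rpow_one]
    have h3 : (n : ℝ) ^ (1 - δ) ≤ 3 * (h : ℝ) ^ (1 - δ) := by
      calc (n : ℝ) ^ (1 - δ) ≤ (3 * h) ^ (1 - δ) := Real.rpow_le_rpow hn0.le hh3' h1δ.le
        _ = 3 ^ (1 - δ) * (h : ℝ) ^ (1 - δ) := Real.mul_rpow (by norm_num) hhr.le
        _ ≤ 3 ^ (1 : ℝ) * (h : ℝ) ^ (1 - δ) := by
          apply mul_le_mul_of_nonneg_right _ (by positivity)
          exact Real.rpow_le_rpow_of_exponent_le (by norm_num) (by linarith)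
        _ = _ := by rw [Real.rpow_one]
    have h4 : (B : ℝ) ^ δ * T ≤ 6 * (h : ℝ) ^ (1 - δ) := by
      calc (B : ℝ) ^ δ * T ≤ (2 * y) * T := mul_le_mul_of_nonneg_right h2 hT0.le
        _ = 2 * (n : ℝ) ^ (1 - δ) := by rw [mul_assoc, hyT]
        _ ≤ _ := by linarith
    rw [e1]
    calc (B : ℝ) * T = (B : ℝ) ^ (1 - δ) * ((B : ℝ) ^ δ * T) := by rw [← mul_assoc, ← e2]
      _ ≤ (B : ℝ) ^ (1 - δ) * (6 * (h : ℝ) ^ (1 - δ)) := mul_le_mul_of_nonneg_left h4 hBp.le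
      _ = _ := by ring
  · rw [e1]
    have h5 : y ≤ (B : ℝ) ^ δ := by
      rw [← hxδ]
      exact Real.rpow_le_rpow hx0.le hBx h0.le
    calc (B : ℝ) ^ (1 - δ) * (h : ℝ) ^ (1 - δ) ≤ (B : ℝ) ^ (1 - δ) * (n : ℝ) ^ (1 - δ) := by
          apply mul_le_mul_of_nonneg_left _ hBp.le
          exact Real.rpow_le_rpow hhr.le (by linarith) h1δ.le
      _ = (B : ℝ) ^ (1 - δ) * (y * T) := by rw [hyT]
      _ ≤ (B : ℝ) ^ (1 - δ) * ((B : ℝ) ^ δ * T) := by gcongr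
      _ = (B : ℝ) * T := by rw [← mul_assoc, ← e2]
  · rw [Nat.cast_mul]
    have h6 : x ≤ ((n : ℝ) ^ (1 - δ)) ^ (1 / δ) := by
      apply Real.rpow_le_rpow hy0.le _ (by positivity)
      rw [hy]
      exact div_le_self (by positivity) hT
    calc (B : ℝ) * h ≤ (2 * x) * h := by gcongr
      _ = x * (2 * h) := by ring
      _ ≤ ((n : ℝ) ^ (1 - δ)) ^ (1 / δ) * n := by gcongr
      _ = (n : ℝ) ^ ((1 - δ) * (1 / δ)) * (n : ℝ) ^ (1 : ℝ) := by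
        rw [← Real.rpow_mul hn0.le, Real.rpow_one]
      _ = (n : ℝ) ^ (1 / δ) := by
        rw [← Real.rpow_add hn0]
        congr 1
        field_simp
        ring

/-- The bound for the number of contents. -/
theorem contents_le (n B b W : ℕ) (hB : 0 < B) (hN : 18 ≤ B * (n / 2)) (hW : W ≤ n ^ b)
    (hn : 2 ≤ n) :
    ((B * (n / 2) + 1) * (B * (n / 2) + 1) + (B * (n / 2) + (B + 1) * (B * (n / 2) + 3))) +
        ((B * (n / 2) + 3) + (B * (n / 2) + W)) ≤ (B * (n / 2)) ^ (2 * b + 4) := by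
  have hh : 1 ≤ n / 2 := by omega
  have hn3 : n ≤ 3 * (n / 2) := by omega
  generalize n / 2 = h at *
  have hBN : B ≤ B * h := Nat.le_mul_of_pos_right _ hh
  have hhN : h ≤ B * h := Nat.le_mul_of_pos_left _ hB
  generalize B * h = N at *
  have h1 : W ≤ N ^ (2 * b) := by
    calc W ≤ n ^ b := hW
      _ ≤ (N ^ 2) ^ b := by
        apply Nat.pow_le_pow_left
        nlinarith
      _ = N ^ (2 * b) := by rw [pow_mul]
  have h2 : (N + 1) * (N + 1) + (N + (B + 1) * (N + 3)) + (N + 3 + N) ≤ 18 * N ^ 2 := by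
    nlinarith
  have h3 : 18 * N ^ 2 ≤ N ^ 3 := by nlinarith [sq_nonneg N]
  have h4 : N ^ 3 ≤ N ^ (2 * b + 3) := Nat.pow_le_pow_right (by omega) (by omega)
  have h5 : N ^ (2 * b) ≤ N ^ (2 * b + 3) := Nat.pow_le_pow_right (by omega) (by omega)
  have h6 : N ^ (2 * b + 4) = N ^ (2 * b + 3) * N := by rw [pow_succ]
  nlinarith

end Pool.Agent.Q84.SI
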