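import Pool.Agent.W964.Si.Defs

/-!
# The family of a block
-/

set_option autoImplicit false

namespace Pool.Agent.Q84.SI

open Pool.Agent.W964.Si

theorem sum_image_le {X Y : Type} [DecidableEq X] [DecidableEq Y] (G : Finset X) (r : X → Y)
    (f : Y → ℕ) : ∑ y ∈ G.image r, f y ≤ ∑ x ∈ G, f (r x) := by
  induction G using Finset.induction_on with
  | empty => simp
  | insert a G ha ih =>
    rw [Finset.image_insert, Finset.sum_insert ha]
    by_cases h : r a ∈ G.image r
    · rw [Finset.insert_eq_of_mem h]
      omega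
    · rw [Finset.sum_insert h]
      omega

/-- The restrictions of the sets of a family to a part `V` are encoded as subsets of `Fin n`, and
completed to an admissible family. -/
theorem exists_block (N n : ℕ) (hN : 0 < N) (hn : 0 < n) (G : Finset (Finset (Fin N)))
    (V : Finset (Fin N)) (hV : ∀ u ∈ V, ∃ s ∈ G, u ∈ s) (hsum : ∑ s ∈ G, (s ∩ V).card ≤ n) :
    ∃ (dec : Fin n → Fin N) (L : List (Finset (Fin n))) (r : Finset (Fin N) → Finset (Fin n)),
      Admissible n L ∧ L.length ≤ G.card + 1 ∧ (∀ s ∈ G, r s ∈ L) ∧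
      ∀ s t, (r s ∩ r t).image dec = s ∩ t ∩ V ∧ (r s ∩ r t).card = (s ∩ t ∩ V).card := by
  classical
  have hVcard : V.card ≤ n := by
    have h1 : V ⊆ G.biUnion (fun s => s ∩ V) := by
      intro u hu
      obtain ⟨s, hs, hus⟩ := hV u hu
      exact Finset.mem_biUnion.2 ⟨s, hs, Finset.mem_inter.2 ⟨hus, hu⟩⟩
    exact (Finset.card_le_card h1).trans (Finset.card_biUnion_le.trans hsum)
  obtain ⟨f⟩ : Nonempty (V ↪ Fin n) := by
    apply Function.Embedding.nonempty_of_card_le
    simpa using hVcard
  let u0 : Fin N := ⟨0, hN⟩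
  let e0 : Fin n := ⟨0, hn⟩
  let enc : Fin N → Fin n := fun u => if h : u ∈ V then f ⟨u, h⟩ else e0
  let dec : Fin n → Fin N := Function.extend f Subtype.val (fun _ => u0)
  have henc : ∀ u, u ∈ V → dec (enc u) = u := by
    intro u hu
    simp only [enc, dec, dif_pos hu]
    exact f.injective.extend_apply _ _ _
  have hinj : Set.InjOn enc V := by
    intro u hu v hv h
    rw [← henc u hu, ← henc v hv, h]
  let r : Finset (Fin N) → Finset (Fin n) := fun s => (s ∩ V).image enc
  have hrcard : ∀ s, (r s).card = (s ∩ V).card := fun s =>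
    Finset.card_image_of_injOn (hinj.mono (by simp))
  have hrinter : ∀ s t, r s ∩ r t = (s ∩ t ∩ V).image enc := by
    intro s t
    ext x
    simp only [r, Finset.mem_inter, Finset.mem_image]
    constructor
    · rintro ⟨⟨u, ⟨hu, huV⟩, rfl⟩, v, ⟨hv, hvV⟩, h⟩
      have : v = u := hinj hvV huV h
      subst this
      exact ⟨v, ⟨⟨hu, hv⟩, huV⟩, rfl⟩
    · rintro ⟨u, ⟨⟨hu, hv⟩, huV⟩, rfl⟩
      exact ⟨⟨u, ⟨hu, huV⟩, rfl⟩, u, ⟨hv, huV⟩, rfl⟩
  let R : Finset (Finset (Fin n)) := G.image r
  let U : Finset (Fin n) := V.image enc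
  set total := ∑ x ∈ R, x.card with htot
  have htotn : total ≤ n := by
    refine (sum_image_le G r Finset.card).trans ?_
    simp only [hrcard]
    exact hsum
  have hUtot : U.card ≤ total := by
    have h1 : U ⊆ R.biUnion id := by
      intro x hx
      obtain ⟨u, hu, rfl⟩ := Finset.mem_image.1 hx
      obtain ⟨s, hs, hus⟩ := hV u hu
      refine Finset.mem_biUnion.2 ⟨r s, Finset.mem_image_of_mem _ hs, ?_⟩
      exact Finset.mem_image_of_mem _ (Finset.mem_inter.2 ⟨hus, hu⟩)
    exact (Finset.card_le_card h1).trans Finset.card_biUnion_le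
  obtain ⟨P, hPU, hPc⟩ : ∃ P ⊆ Finset.univ \ U, P.card = n - total := by
    apply Finset.exists_subset_card_eq
    rw [Finset.card_sdiff_of_subset (Finset.subset_univ _), Finset.card_univ, Fintype.card_fin]
    omega
  refine ⟨dec, R.toList ++ (if n - total = 0 then [] else [P]), r, ⟨?_, ?_⟩, ?_, ?_, ?_⟩
  · split_ifs with h
    · simpa using R.nodup_toList
    · rw [List.nodup_append]
      refine ⟨R.nodup_toList, by simp, ?_⟩
      intro x hx y hy hxy
      rw [List.mem_singleton] at hy
      subst hy
      subst hxy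
      rw [Finset.mem_toList] at hx
      obtain ⟨s, -, hs⟩ := Finset.mem_image.1 hx
      have h1 : x ⊆ U := by
        rw [← hs]
        exact Finset.image_subset_image Finset.inter_subset_right
      obtain ⟨a, ha⟩ : x.Nonempty := by
        rw [← Finset.card_pos, hPc]; omega
      have := hPU ha
      rw [Finset.mem_sdiff] at this
      exact this.2 (h1 ha)
  · rw [List.map_append, List.sum_append, Finset.sum_map_toList]
    split_ifs with h
    · simp only [List.map_nil, List.sum_nil]
      rw [← htot]; omega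
    · simp only [List.map_cons, List.map_nil, List.sum_cons, List.sum_nil, hPc]
      rw [← htot]; omega
  · rw [List.length_append, Finset.length_toList]
    have h1 : R.card ≤ G.card := Finset.card_image_le
    split_ifs <;> simp <;> omega
  · intro s hs
    rw [List.mem_append]
    exact Or.inl (Finset.mem_toList.2 (Finset.mem_image_of_mem _ hs))
  · intro s t
    rw [hrinter]
    constructor
    · ext x
      simp only [Finset.mem_image]
      constructor
      · rintro ⟨e, ⟨u, hu, rfl⟩, rfl⟩
        rw [henc u (Finset.mem_inter.1 hu).2]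
        exact hu
      · intro hx
        exact ⟨enc x, ⟨x, hx, rfl⟩, henc x (Finset.mem_inter.1 hx).2⟩
    · exact Finset.card_image_of_injOn (hinj.mono (fun x hx =>
        (Finset.mem_inter.1 (Finset.mem_coe.1 hx)).2))

end Pool.Agent.Q84.SI
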