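import Mathlib

/-!
# Partitions of weighted sets into parts of bounded weight
-/

set_option autoImplicit false

namespace Pool.Agent.Q84.SI

/-- Weights at most `h` of sum at most `B h` can be divided into `B + 1` parts of weight at most
`2 h`. -/
theorem exists_blocks (N B h : ℕ) (hh : 0 < h) (w : Fin N → ℕ) (hw : ∀ u, w u ≤ h)
    (hs : ∑ u, w u ≤ B * h) :
    ∃ β : Fin N → Fin (B + 1), ∀ b, ∑ u ∈ Finset.univ.filter (fun u => β u = b), w u ≤ 2 * h := by
  have hP : ∀ u : Fin N, (∑ v ∈ Finset.Iio u, w v) / h < B + 1 := by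
    intro u
    have h1 : ∑ v ∈ Finset.Iio u, w v ≤ B * h :=
      (Finset.sum_le_sum_of_subset (Finset.subset_univ _)).trans hs
    have h2 : (∑ v ∈ Finset.Iio u, w v) / h ≤ B := by
      calc _ ≤ (B * h) / h := Nat.div_le_div_right h1
        _ = B := Nat.mul_div_cancel _ hh
    omega
  refine ⟨fun u => ⟨(∑ v ∈ Finset.Iio u, w v) / h, hP u⟩, fun b => ?_⟩
  set c : Finset (Fin N) := Finset.univ.filter (fun u =>
    (⟨(∑ v ∈ Finset.Iio u, w v) / h, hP u⟩ : Fin (B + 1)) = b) with hc
  rcases c.eq_empty_or_nonempty with he | hne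
  · rw [he, Finset.sum_empty]; omega
  have hmem : ∀ u ∈ c, (∑ v ∈ Finset.Iio u, w v) / h = b := by
    intro u hu
    rw [hc, Finset.mem_filter] at hu
    exact congrArg Fin.val hu.2
  set M := c.max' hne with hM
  set m := c.min' hne with hm
  have hMc : M ∈ c := c.max'_mem hne
  have hmc : m ∈ c := c.min'_mem hne
  have hmM : m ≤ M := c.min'_le _ hMc
  have h1 : ∑ u ∈ c, w u ≤ ∑ u ∈ Finset.Icc m M, w u := by
    apply Finset.sum_le_sum_of_subset
    intro u hu
    rw [Finset.mem_Icc]
    exact ⟨c.min'_le _ hu, c.le_max' _ hu⟩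
  have h2 : ∑ v ∈ Finset.Iio M, w v + w M = ∑ v ∈ Finset.Iio m, w v + ∑ u ∈ Finset.Icc m M, w u := by
    have e1 : Finset.Iio M ∪ {M} = Finset.Iio m ∪ Finset.Icc m M := by
      ext x
      simp only [Finset.mem_union, Finset.mem_Iio, Finset.mem_singleton, Finset.mem_Icc]
      constructor
      · rintro (h | h)
        · by_cases hx : x < m
          · exact Or.inl hx
          · exact Or.inr ⟨not_lt.1 hx, h.le⟩
        · subst h
          exact Or.inr ⟨hmM, le_rfl⟩
      · rintro (h | ⟨h, h'⟩)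
        · exact Or.inl (h.trans_le hmM)
        · exact h'.lt_or_eq
    have d1 : Disjoint (Finset.Iio M) {M} := by
      rw [Finset.disjoint_singleton_right, Finset.mem_Iio]; exact lt_irrefl _
    have d2 : Disjoint (Finset.Iio m) (Finset.Icc m M) := by
      rw [Finset.disjoint_left]
      intro x hx hx'
      rw [Finset.mem_Iio] at hx
      rw [Finset.mem_Icc] at hx'
      exact absurd hx (not_lt.2 hx'.1)
    rw [← Finset.sum_union d2, ← e1, Finset.sum_union d1, Finset.sum_singleton]
  have h3 := hmem M hMc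
  have h4 := hmem m hmc
  have h5 : ∑ v ∈ Finset.Iio M, w v < (b + 1) * h := by
    have := Nat.lt_div_mul_add (a := ∑ v ∈ Finset.Iio M, w v) hh
    rw [h3] at this
    calc _ < _ := this
      _ = _ := by ring
  have h6 : (b : ℕ) * h ≤ ∑ v ∈ Finset.Iio m, w v := by
    rw [← h4]
    exact Nat.div_mul_le_self _ _
  have h7 := hw M
  have h8 : ((b : ℕ) + 1) * h = b * h + h := by ring
  omega

end Pool.Agent.Q84.SI
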