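import Pool.Agent.Q84.SI.Query
import Pool.Agent.Q84.SI.Block
import Pool.Agent.Q84.SI.Part

/-!
# The decomposition of a family
-/

set_option autoImplicit false

namespace Pool.Agent.Q84.SI

open Pool.Agent.W964.Si GAlg

/-- The number of sets of the family which contain `u`. -/
def deg {N : ℕ} (G : Finset (Finset (Fin N))) (u : Fin N) : ℕ := ∑ s ∈ G, if u ∈ s then 1 else 0

theorem sum_deg {N : ℕ} (G : Finset (Finset (Fin N))) (V : Finset (Fin N)) :
    ∑ u ∈ V, deg G u = ∑ s ∈ G, (s ∩ V).card := by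
  unfold deg
  rw [Finset.sum_comm]
  refine Finset.sum_congr rfl fun s _ => ?_
  rw [Finset.sum_boole, Nat.cast_id, Finset.inter_comm]
  rfl

/-- Frequent elements and blocks. -/
theorem exists_split (N B h : ℕ) (hh : 0 < h) (hN : N = B * h) (G : Finset (Finset (Fin N)))
    (hG : ∑ s ∈ G, s.card = N) :
    ∃ (β : Fin N → Fin (B + 1)) (H : Finset (Fin N)), H.card ≤ B ∧
      (∀ b, ∑ s ∈ G, (s ∩ Finset.univ.filter (fun u => u ∉ H ∧ (∃ s ∈ G, u ∈ s) ∧ β u = b)).card
        ≤ 2 * h) := by
  classical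
  have hsum : ∑ u, deg G u = N := by
    rw [sum_deg G Finset.univ]
    simpa using hG
  obtain ⟨β, hβ⟩ := exists_blocks N B h hh (fun u => if deg G u ≤ h then deg G u else 0)
    (fun u => by split_ifs <;> omega) (by
      calc _ ≤ ∑ u, deg G u := Finset.sum_le_sum fun u _ => by split_ifs <;> omega
        _ = B * h := by rw [hsum, hN])
  refine ⟨β, Finset.univ.filter (fun u => h < deg G u), ?_, fun b => ?_⟩
  · by_contra hcon
    push Not at hcon
    have h1 : ∑ u ∈ Finset.univ.filter (fun u => h < deg G u), (h + 1) ≤ ∑ u, deg G u := by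
      refine le_trans (Finset.sum_le_sum fun u hu => ?_)
        (Finset.sum_le_sum_of_subset (Finset.subset_univ _))
      exact (Finset.mem_filter.1 hu).2
    rw [hsum, Finset.sum_const, smul_eq_mul] at h1
    have h2 : (B + 1) * (h + 1) ≤
        (Finset.univ.filter (fun u => h < deg G u)).card * (h + 1) :=
      Nat.mul_le_mul_right _ hcon
    have h3 : (B + 1) * (h + 1) = B * h + B + h + 1 := by ring
    omega
  · rw [← sum_deg]
    refine le_trans ?_ (hβ b)
    have h1 : ∀ u ∈ Finset.univ.filter (fun u => u ∉ Finset.univ.filter (fun u => h < deg G u) ∧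
        (∃ s ∈ G, u ∈ s) ∧ β u = b), deg G u = if deg G u ≤ h then deg G u else 0 := by
      intro u hu
      have := (Finset.mem_filter.1 hu).2.1
      rw [Finset.mem_filter, not_and] at this
      rw [if_pos (not_lt.1 (this (Finset.mem_univ _)))]
    rw [Finset.sum_congr rfl h1]
    apply Finset.sum_le_sum_of_subset
    intro u hu
    rw [Finset.mem_filter] at hu ⊢
    exact ⟨Finset.mem_univ _, hu.2.2.2⟩

/-- The data of the decomposition of an admissible family. -/
structure Dec (N n B : ℕ) (F : List (Finset (Fin N))) where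
  β : Fin N → Fin (B + 1)
  H : Finset (Fin N)
  hH : H.card ≤ B
  V : Fin (B + 1) → Finset (Fin N)
  hVβ : ∀ b u, u ∈ V b → β u = b
  hVH : ∀ b u, u ∈ V b → u ∉ H
  cover : ∀ s ∈ F, ∀ u ∈ s, u ∈ H ∨ u ∈ V (β u)
  dec : Fin (B + 1) → Fin n → Fin N
  L : Fin (B + 1) → List (Finset (Fin n))
  r : Fin (B + 1) → Finset (Fin N) → Finset (Fin n)
  adm : ∀ b, Admissible n (L b)
  len : ∀ b, (L b).length < N + 3
  mem : ∀ b, ∀ s ∈ F, r b s ∈ L b
  img : ∀ b s t, (r b s ∩ r b t).image (dec b) = s ∩ t ∩ V b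
  crd : ∀ b s t, (r b s ∩ r b t).card = (s ∩ t ∩ V b).card

theorem length_le {N : ℕ} (G : Finset (Finset (Fin N))) (hG : ∑ s ∈ G, s.card = N) :
    G.card ≤ N + 1 := by
  classical
  have h1 : (G.erase ∅).card ≤ ∑ s ∈ G.erase ∅, s.card := by
    rw [Finset.card_eq_sum_ones]
    apply Finset.sum_le_sum
    intro s hs
    rw [Nat.one_le_iff_ne_zero, Ne, Finset.card_eq_zero]
    exact Finset.ne_of_mem_erase hs
  have h2 : ∑ s ∈ G.erase ∅, s.card ≤ N :=
    (Finset.sum_le_sum_of_subset (Finset.erase_subset _ _)).trans hG.le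
  have h3 : G.card - 1 ≤ (G.erase ∅).card := Finset.pred_card_le_card_erase
  omega

theorem sum_toFinset {N : ℕ} {F : List (Finset (Fin N))} (hF : Admissible N F) :
    ∑ s ∈ F.toFinset, s.card = N := by
  rw [List.sum_toFinset _ hF.1]
  exact hF.2

theorem exists_dec (N n B h : ℕ) (hh : 0 < h) (hB : 0 < B) (hn : 2 * h ≤ n) (hN : N = B * h)
    (F : List (Finset (Fin N))) (hF : Admissible N F) : Nonempty (Dec N n B F) := by
  classical
  have hsum := sum_toFinset hF
  have hN0 : 0 < N := by rw [hN]; positivity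
  obtain ⟨β, H, hH, hb⟩ := exists_split N B h hh hN F.toFinset hsum
  set V : Fin (B + 1) → Finset (Fin N) := fun b =>
    Finset.univ.filter (fun u => u ∉ H ∧ (∃ s ∈ F.toFinset, u ∈ s) ∧ β u = b) with hV
  have hex := fun b => exists_block N n hN0 (by omega) F.toFinset (V b)
    (fun u hu => (Finset.mem_filter.1 hu).2.2.1) ((hb b).trans hn)
  choose dec L r adm len mem img using hex
  have hlen := length_le F.toFinset hsum
  exact ⟨{
    β := β
    H := H
    hH := hH
    V := V
    hVβ := fun b u hu => (Finset.mem_filter.1 hu).2.2.2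
    hVH := fun b u hu => (Finset.mem_filter.1 hu).2.1
    cover := fun s hs u hu => by
      by_cases h1 : u ∈ H
      · exact Or.inl h1
      · exact Or.inr (Finset.mem_filter.2 ⟨Finset.mem_univ _, h1, ⟨s, List.mem_toFinset.2 hs, hu⟩,
          rfl⟩)
    dec := dec
    L := L
    r := r
    adm := adm
    len := fun b => by have := len b; omega
    mem := fun b s hs => mem b s (List.mem_toFinset.2 hs)
    img := fun b s t => (img b s t).1
    crd := fun b s t => (img b s t).2 }⟩

end Pool.Agent.Q84.SI
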