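import Pool.Agent.Q84.SI.Layout

/-!
# The memory for a family
-/

set_option autoImplicit false

namespace Pool.Agent.Q84.SI

open Pool.Agent.W964.Si GAlg

variable {N n B S W : ℕ} {F : List (Finset (Fin N))}

/-- The index of the part of `s` in the block `b`. -/
noncomputable def idx (X : Dec N n B F) (b : Fin (B + 1)) (s : Finset (Fin N)) : Fin (N + 3) :=
  Fin.ofNat (N + 3) ((X.L b).idxOf (X.r b s))

/-- The entries of a set. -/
noncomputable def ents (X : Dec N n B F) (s : Finset (Fin N)) : Finset (Ent N B) :=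
  (s ∩ X.H).image Sum.inl ∪
    (Finset.univ.filter (fun b => (s ∩ X.V b).Nonempty)).image (fun b => Sum.inr (b, idx X b s))

theorem inl_mem_ents (X : Dec N n B F) (s : Finset (Fin N)) (u : Fin N) :
    (Sum.inl u : Ent N B) ∈ ents X s ↔ u ∈ s ∧ u ∈ X.H := by
  simp [ents]

theorem inr_mem_ents (X : Dec N n B F) (s : Finset (Fin N)) (b : Fin (B + 1))
    (a : Fin (N + 3)) :
    (Sum.inr (b, a) : Ent N B) ∈ ents X s ↔ (s ∩ X.V b).Nonempty ∧ a = idx X b s := by
  simp only [ents, Finset.mem_union, Finset.mem_image, reduceCtorEq, and_false, exists_false,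
    false_or, Finset.mem_filter, Finset.mem_univ, true_and, Sum.inr.injEq, Prod.mk.injEq]
  constructor
  · rintro ⟨b', h, rfl, rfl⟩
    exact ⟨h, rfl⟩
  · rintro ⟨h, rfl⟩
    exact ⟨b, h, rfl, rfl⟩

theorem card_ents_le (X : Dec N n B F) (s : Finset (Fin N)) : (ents X s).card ≤ s.card := by
  classical
  have h1 : (Finset.univ.filter (fun b => (s ∩ X.V b).Nonempty)).card ≤ (s \ X.H).card := by
    refine le_trans (Finset.card_le_card ?_) (Finset.card_image_le (s := s \ X.H) (f := X.β))
    intro b hb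
    obtain ⟨u, hu⟩ := (Finset.mem_filter.1 hb).2
    rw [Finset.mem_inter] at hu
    exact Finset.mem_image.2 ⟨u, Finset.mem_sdiff.2 ⟨hu.1, X.hVH b u hu.2⟩, X.hVβ b u hu.2⟩
  have h2 : (ents X s).card ≤ (s ∩ X.H).card +
      (Finset.univ.filter (fun b => (s ∩ X.V b).Nonempty)).card :=
    (Finset.card_union_le _ _).trans (Nat.add_le_add Finset.card_image_le Finset.card_image_le)
  have h3 : (s ∩ X.H).card + (s \ X.H).card = s.card := Finset.card_inter_add_card_sdiff s X.H
  omega

theorem card_ents_le' (X : Dec N n B F) (s : Finset (Fin N)) :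
    (ents X s).card ≤ 2 * B + 1 := by
  classical
  have h1 : (Finset.univ.filter (fun b => (s ∩ X.V b).Nonempty)).card ≤ B + 1 := by
    refine (Finset.card_le_univ _).trans ?_
    rw [Fintype.card_fin]
  have h2 : (ents X s).card ≤ (s ∩ X.H).card +
      (Finset.univ.filter (fun b => (s ∩ X.V b).Nonempty)).card :=
    (Finset.card_union_le _ _).trans (Nat.add_le_add Finset.card_image_le Finset.card_image_le)
  have h3 : (s ∩ X.H).card ≤ B := (Finset.card_le_card Finset.inter_subset_right).trans X.hH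
  omega

/-- The position of the first entry of the set with the index `i`. -/
def pos (F : List (Finset (Fin N))) (i : Fin F.length) : ℕ :=
  ∑ k : Fin (i : ℕ), (F.get (Fin.castLE i.2.le k)).card

theorem sum_get (hF : Admissible N F) : ∑ i : Fin F.length, (F.get i).card = N := by
  have := hF.2
  rw [← Fin.sum_univ_fun_getElem F Finset.card] at this
  exact this

theorem pos_add_lt (hF : Admissible N F) (i : Fin F.length) (e : ℕ) (he : e < (F.get i).card) :
    pos F i + e < N := by
  have h1 := finSigmaFinEquiv_apply (n := fun i => (F.get i).card) ⟨i, ⟨e, he⟩⟩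
  have h2 := (finSigmaFinEquiv (n := fun i => (F.get i).card) ⟨i, ⟨e, he⟩⟩).2
  rw [h1] at h2
  calc _ = _ := rfl
    _ < _ := h2
    _ = N := sum_get hF

theorem pos_le (hF : Admissible N F) (i : Fin F.length) : pos F i ≤ N := by
  calc pos F i = ∑ k : Fin (i : ℕ), (F.get (Fin.castLE i.2.le k)).card := rfl
    _ ≤ ∑ i : Fin F.length, (F.get i).card := by
      have h1 : ∑ k : Fin (i : ℕ), (F.get (Fin.castLE i.2.le k)).card =
          ∑ x ∈ Finset.univ.map (Fin.castLEEmb i.2.le), (F.get x).card :=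
        (Finset.sum_map Finset.univ (Fin.castLEEmb i.2.le) (fun i => (F.get i).card)).symm
      rw [h1]
      exact Finset.sum_le_sum_of_subset (Finset.subset_univ _)
    _ = N := sum_get hF

/-- The entry at a position. -/
noncomputable def entAt (hF : Admissible N F) (X : Dec N n B F) (p : Fin N) : Ent N B :=
  (ents X (F.get (finSigmaFinEquiv.symm (Fin.cast (sum_get hF).symm p)).1)).toList.getD
    (finSigmaFinEquiv.symm (Fin.cast (sum_get hF).symm p)).2 (Sum.inl p)

theorem entAt_pos (hF : Admissible N F) (X : Dec N n B F) (i : Fin F.length) (e : ℕ)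
    (he : e < (ents X (F.get i)).card) :
    entAt hF X ⟨pos F i + e, pos_add_lt hF i e (he.trans_le (card_ents_le X _))⟩ =
      (ents X (F.get i)).toList[e]'(by rw [Finset.length_toList]; exact he) := by
  have he' : e < (F.get i).card := he.trans_le (card_ents_le X _)
  have h1 : finSigmaFinEquiv.symm (Fin.cast (sum_get hF).symm
      ⟨pos F i + e, pos_add_lt hF i e he'⟩) =
      (⟨i, ⟨e, he'⟩⟩ : (i : Fin F.length) × Fin (F.get i).card) := by
    rw [Equiv.symm_apply_eq]
    apply Fin.ext
    rw [finSigmaFinEquiv_apply]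
    rfl
  unfold entAt
  rw [h1]
  exact List.getD_eq_getElem _ _ _

/-- The memory. -/
noncomputable def memF (D : DataStructure n S W) (hF : Admissible N F) (X : Dec N n B F) :
    Adr N n B S → Val N B W
  | Sum.inl (Sum.inl i) => if h : (i : ℕ) < F.length then
      Sum.inl (Sum.inl (Fin.ofNat (N + 1) (pos F ⟨i, h⟩),
        Fin.ofNat (N + 1) (ents X (F.get ⟨i, h⟩)).card)) else Sum.inl (Sum.inl (0, 0))
  | Sum.inl (Sum.inr p) => Sum.inl (Sum.inr (entAt hF X p))
  | Sum.inr (Sum.inl b) => Sum.inr (Sum.inl (Fin.ofNat (N + 3) (X.L b).length))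
  | Sum.inr (Sum.inr (Sum.inl (b, e))) => Sum.inr (Sum.inr (Sum.inl (X.dec b e)))
  | Sum.inr (Sum.inr (Sum.inr (b, c))) => Sum.inr (Sum.inr (Sum.inr (D.memory (X.L b) c)))

theorem out_readSet (D : DataStructure n S W) (hF : Admissible N F) (X : Dec N n B F)
    (i : Fin F.length) :
    (readSet (pos F i) (ents X (F.get i)).card :
      GAlg (Adr N n B S) (Val N B W) (Finset (Ent N B))).out (memF D hF X) =
      ents X (F.get i) := by
  ext x
  unfold readSet
  rw [mem_unionL]
  simp only [List.mem_map, List.mem_range]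
  constructor
  · rintro ⟨_, ⟨e, he, rfl⟩, hx⟩
    rw [out_readAt (memF D hF X) _ (pos_add_lt hF i e (he.trans_le (card_ents_le X _))) _ rfl,
      Finset.mem_singleton, entAt_pos hF X i e he] at hx
    rw [hx, ← Finset.mem_toList]
    exact List.getElem_mem _
  · intro hx
    rw [← Finset.mem_toList, List.mem_iff_getElem] at hx
    obtain ⟨e, he, hx⟩ := hx
    rw [Finset.length_toList] at he
    refine ⟨_, ⟨e, he, rfl⟩, ?_⟩
    rw [out_readAt (memF D hF X) _ (pos_add_lt hF i e (he.trans_le (card_ents_le X _))) _ rfl,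
      Finset.mem_singleton, entAt_pos hF X i e he]
    exact hx.symm

theorem out_headAt_mem (D : DataStructure n S W) (hF : Admissible N F) (X : Dec N n B F)
    (i : ℕ) (hi : i < F.length) :
    (headAt i : GAlg (Adr N n B S) (Val N B W) (ℕ × ℕ)).out (memF D hF X) =
      (pos F ⟨i, hi⟩, (ents X F[i]).card) := by
  have hlen : F.length ≤ N + 1 := by
    have := length_le F.toFinset (sum_toFinset hF)
    rwa [List.toFinset_card_of_nodup hF.1] at this
  have h1 : ((Fin.ofNat (N + 2) i : Fin (N + 2)) : ℕ) = i := by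
    rw [Fin.val_ofNat]
    exact Nat.mod_eq_of_lt (by omega)
  have h2 : (ents X F[i]).card ≤ N := by
    have h3 := card_ents_le X F[i]
    have h4 : F[i].card ≤ (F.map Finset.card).sum :=
      List.single_le_sum (by simp) _ (List.mem_map_of_mem (List.getElem_mem hi))
    rw [hF.2] at h4
    omega
  have hm : memF D hF X (Sum.inl (Sum.inl (Fin.ofNat (N + 2) i))) = Sum.inl (Sum.inl
      (Fin.ofNat (N + 1) (pos F ⟨i, hi⟩), Fin.ofNat (N + 1) (ents X F[i]).card)) := by
    have h5 : ((Fin.ofNat (N + 2) i : Fin (N + 2)) : ℕ) < F.length := by rw [h1]; exact hi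
    have h6 : (⟨((Fin.ofNat (N + 2) i : Fin (N + 2)) : ℕ), h5⟩ : Fin F.length) = ⟨i, hi⟩ :=
      Fin.ext h1
    simp only [memF, dif_pos h5, h6]
    rfl
  rw [out_headAt _ _ _ _ hm, Fin.val_ofNat, Fin.val_ofNat,
    Nat.mod_eq_of_lt (Nat.lt_succ_of_le (pos_le hF _)), Nat.mod_eq_of_lt (Nat.lt_succ_of_le h2)]

end Pool.Agent.Q84.SI
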