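import Pool.Agent.Q84.SI.Alg

/-!
# The memory layout and the query algorithm
-/

set_option autoImplicit false

namespace Pool.Agent.Q84.SI

open Pool.Agent.W964.Si GAlg

variable {N n B S W : ℕ}

/-- Entries: a frequent element, or a block together with the index of the set in the family of the
block. -/
abbrev Ent (N B : ℕ) : Type := Fin N ⊕ (Fin (B + 1) × Fin (N + 3))

/-- Addresses: heads of the sets, entries, sizes of the families of the blocks, decoding tables,
memories of the blocks. -/
abbrev Adr (N n B S : ℕ) : Type :=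
  (Fin (N + 2) ⊕ Fin N) ⊕ (Fin (B + 1) ⊕ ((Fin (B + 1) × Fin n) ⊕ (Fin (B + 1) × Fin S)))

/-- Contents. -/
abbrev Val (N B W : ℕ) : Type :=
  ((Fin (N + 1) × Fin (N + 1)) ⊕ Ent N B) ⊕ (Fin (N + 3) ⊕ (Fin N ⊕ Fin W))

/-- Reading an entry. -/
def readAt (p : ℕ) : GAlg (Adr N n B S) (Val N B W) (Finset (Ent N B)) :=
  if h : p < N then
    probe (Sum.inl (Sum.inr ⟨p, h⟩)) (fun v => match v with
      | Sum.inl (Sum.inr e) => answer {e}
      | _ => answer ∅)
  else answer ∅

/-- Reading the entries of a set. -/
def readSet (o l : ℕ) : GAlg (Adr N n B S) (Val N B W) (Finset (Ent N B)) :=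
  unionL ((List.range l).map (fun e => readAt (o + e)))

/-- Decoding an element of a block. -/
def decAt (b : Fin (B + 1)) (e : Fin n) : GAlg (Adr N n B S) (Val N B W) (Finset (Fin N)) :=
  probe (Sum.inr (Sum.inr (Sum.inl (b, e)))) (fun v => match v with
    | Sum.inr (Sum.inr (Sum.inl u)) => answer {u}
    | _ => answer ∅)

def getW (v : Val N B W) : Option (Fin W) := match v with
  | Sum.inr (Sum.inr (Sum.inr x)) => some x
  | _ => none

/-- The query in a block. -/
noncomputable def blockQ (D : DataStructure n S W) (t : Fin (B + 1) × Fin (N + 3) × Fin (N + 3)) :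
    GAlg (Adr N n B S) (Val N B W) (Finset (Fin N)) :=
  probe (Sum.inr (Sum.inl t.1)) (fun v => match v with
    | Sum.inr (Sum.inl k) =>
      (lift (fun c => Sum.inr (Sum.inr (Sum.inr (t.1, c)))) getW ∅
        (D.query k t.2.1 t.2.2)).bind (fun R => unionL (R.toList.map (decAt t.1)))
    | _ => answer ∅)

/-- The common blocks. -/
def common (E E' : Finset (Ent N B)) : Finset (Fin (B + 1) × Fin (N + 3) × Fin (N + 3)) :=
  Finset.univ.filter (fun t => Sum.inr (t.1, t.2.1) ∈ E ∧ Sum.inr (t.1, t.2.2) ∈ E')

/-- The common frequent elements. -/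
def freq (E E' : Finset (Ent N B)) : Finset (Fin N) :=
  Finset.univ.filter (fun u => Sum.inl u ∈ E ∧ Sum.inl u ∈ E')

/-- The query after the entries have been read. -/
noncomputable def finish (D : DataStructure n S W) (E E' : Finset (Ent N B)) :
    GAlg (Adr N n B S) (Val N B W) (Finset (Fin N)) :=
  (unionL ((common E E').toList.map (blockQ D))).bind (fun R => answer (freq E E' ∪ R))

/-- Reading a head. -/
def headAt (i : ℕ) : GAlg (Adr N n B S) (Val N B W) (ℕ × ℕ) :=
  probe (Sum.inl (Sum.inl (Fin.ofNat (N + 2) i))) (fun v => match v with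
    | Sum.inl (Sum.inl p) => answer ((p.1 : ℕ), (p.2 : ℕ))
    | _ => answer (0, 0))

/-- The query algorithm. -/
noncomputable def query (D : DataStructure n S W) (i j : ℕ) :
    GAlg (Adr N n B S) (Val N B W) (Finset (Fin N)) :=
  (headAt i).bind fun p => (headAt j).bind fun p' =>
    (readSet p.1 p.2).bind fun E => (readSet p'.1 p'.2).bind fun E' => finish D E E'

theorem out_readAt (mem : Adr N n B S → Val N B W) (p : ℕ) (h : p < N) (e : Ent N B)
    (he : mem (Sum.inl (Sum.inr ⟨p, h⟩)) = Sum.inl (Sum.inr e)) :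
    (readAt p : GAlg (Adr N n B S) (Val N B W) (Finset (Ent N B))).out mem = {e} := by
  simp only [readAt, dif_pos h, out, he]

theorem probes_readAt (mem : Adr N n B S → Val N B W) (p : ℕ) :
    (readAt p : GAlg (Adr N n B S) (Val N B W) (Finset (Ent N B))).probes mem ≤ 1 := by
  unfold readAt
  split_ifs with h
  · simp only [probes]
    split <;> simp [probes]
  · simp [probes]

theorem probes_readSet (mem : Adr N n B S → Val N B W) (o l : ℕ) :
    (readSet o l : GAlg (Adr N n B S) (Val N B W) (Finset (Ent N B))).probes mem ≤ l := by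
  unfold readSet
  rw [probes_unionL, List.map_map]
  calc _ ≤ ((List.range l).map (fun _ => 1)).sum := by
        apply List.sum_le_sum
        intro e _
        exact probes_readAt mem _
    _ = l := by simp

theorem out_headAt (mem : Adr N n B S → Val N B W) (i : ℕ) (a b : Fin (N + 1))
    (h : mem (Sum.inl (Sum.inl (Fin.ofNat (N + 2) i))) = Sum.inl (Sum.inl (a, b))) :
    (headAt i : GAlg (Adr N n B S) (Val N B W) (ℕ × ℕ)).out mem = ((a : ℕ), (b : ℕ)) := by
  simp only [headAt, out, h]

theorem probes_headAt (mem : Adr N n B S → Val N B W) (i : ℕ) :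
    (headAt i : GAlg (Adr N n B S) (Val N B W) (ℕ × ℕ)).probes mem = 1 := by
  simp only [headAt, probes]
  split <;> simp [probes]

theorem out_decAt (mem : Adr N n B S → Val N B W) (b : Fin (B + 1)) (e : Fin n) (u : Fin N)
    (h : mem (Sum.inr (Sum.inr (Sum.inl (b, e)))) = Sum.inr (Sum.inr (Sum.inl u))) :
    (decAt b e : GAlg (Adr N n B S) (Val N B W) (Finset (Fin N))).out mem = {u} := by
  simp only [decAt, out, h]

theorem probes_decAt (mem : Adr N n B S → Val N B W) (b : Fin (B + 1)) (e : Fin n) :
    (decAt b e : GAlg (Adr N n B S) (Val N B W) (Finset (Fin N))).probes mem = 1 := by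
  simp only [decAt, probes]
  split <;> simp [probes]

/-- The query in a block: result and number of probes. -/
theorem blockQ_spec (D : DataStructure n S W) (mem : Adr N n B S → Val N B W)
    (b : Fin (B + 1)) (a a' : Fin (N + 3)) (k : Fin (N + 3))
    (hk : mem (Sum.inr (Sum.inl b)) = Sum.inr (Sum.inl k)) (dec : Fin n → Fin N)
    (hdec : ∀ e, mem (Sum.inr (Sum.inr (Sum.inl (b, e)))) = Sum.inr (Sum.inr (Sum.inl (dec e))))
    (mb : Fin S → Fin W)
    (hmb : ∀ c, mem (Sum.inr (Sum.inr (Sum.inr (b, c)))) = Sum.inr (Sum.inr (Sum.inr (mb c)))) :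
    (blockQ D (b, a, a')).out mem = ((D.query k a a').out mb).image dec ∧
    (blockQ D (b, a, a')).probes mem =
      1 + (D.query k a a').probes mb + ((D.query k a a').out mb).card := by
  have hm : ∀ c, getW (mem (Sum.inr (Sum.inr (Sum.inr (b, c)))) : Val N B W) = some (mb c) := by
    intro c
    rw [hmb c]; rfl
  constructor
  · ext x
    simp only [blockQ, out, hk, out_bind, mem_unionL, List.mem_map, Finset.mem_toList,
      Finset.mem_image]
    rw [out_lift _ _ _ mem mb hm]
    constructor
    · rintro ⟨al, ⟨e, he, rfl⟩, hx⟩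
      rw [out_decAt mem b e _ (hdec e), Finset.mem_singleton] at hx
      exact ⟨e, he, hx.symm⟩
    · rintro ⟨e, he, rfl⟩
      refine ⟨_, ⟨e, he, rfl⟩, ?_⟩
      rw [out_decAt mem b e _ (hdec e), Finset.mem_singleton]
  · simp only [blockQ, probes, hk, probes_bind, probes_unionL, List.map_map]
    rw [probes_lift _ _ _ mem mb hm, out_lift _ _ _ mem mb hm]
    have : (fun e => (decAt b e : GAlg (Adr N n B S) (Val N B W) (Finset (Fin N))).probes mem) =
        fun _ => 1 := funext fun e => probes_decAt mem b e
    have h2 : (List.map ((fun a : GAlg (Adr N n B S) (Val N B W) (Finset (Fin N)) =>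
        a.probes mem) ∘ decAt b) ((D.query k a a').out mb).toList).sum =
        ((D.query k a a').out mb).card := by
      rw [show ((fun a : GAlg (Adr N n B S) (Val N B W) (Finset (Fin N)) =>
        a.probes mem) ∘ decAt b) = fun _ => 1 from this]
      simp
    rw [h2]
    omega

end Pool.Agent.Q84.SI
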