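import Pool.Agent.Q84.SI.Mem

/-!
# Correctness and number of probes
-/

set_option autoImplicit false

namespace Pool.Agent.Q84.SI

open Pool.Agent.W964.Si GAlg

variable {N n B S W : ℕ} {F : List (Finset (Fin N))}

theorem mem_common (X : Dec N n B F) (s t : Finset (Fin N))
    (q : Fin (B + 1) × Fin (N + 3) × Fin (N + 3)) :
    q ∈ common (ents X s) (ents X t) ↔ ((s ∩ X.V q.1).Nonempty ∧ q.2.1 = idx X q.1 s) ∧
      (t ∩ X.V q.1).Nonempty ∧ q.2.2 = idx X q.1 t := by
  simp only [common, Finset.mem_filter, Finset.mem_univ, true_and, inr_mem_ents]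

theorem block_spec (D : DataStructure n S W) (hD : D.Correct) {C T : ℝ} (hf : D.Fast C T)
    (hF : Admissible N F) (X : Dec N n B F) {s t : Finset (Fin N)} (hs : s ∈ F) (ht : t ∈ F)
    (b : Fin (B + 1)) :
    (blockQ D (b, idx X b s, idx X b t)).out (memF D hF X) = s ∩ t ∩ X.V b ∧
    (((blockQ D (b, idx X b s, idx X b t)).probes (memF D hF X) : ℕ) : ℝ) ≤
      1 + C * (T + ((s ∩ t ∩ X.V b).card : ℝ)) + ((s ∩ t ∩ X.V b).card : ℝ) := by
  have h1 := blockQ_spec D (memF D hF X) b (idx X b s) (idx X b t)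
    (Fin.ofNat (N + 3) (X.L b).length) rfl (X.dec b) (fun e => rfl) (D.memory (X.L b))
    (fun c => rfl)
  have hlen := X.len b
  have e1 : ((Fin.ofNat (N + 3) (X.L b).length : Fin (N + 3)) : ℕ) = (X.L b).length := by
    rw [Fin.val_ofNat]; exact Nat.mod_eq_of_lt hlen
  have hi : ∀ s ∈ F, ((idx X b s : Fin (N + 3)) : ℕ) = (X.L b).idxOf (X.r b s) ∧
      (X.L b).idxOf (X.r b s) < (X.L b).length := by
    intro s hs
    have h2 := List.idxOf_lt_length_iff.2 (X.mem b s hs)
    refine ⟨?_, h2⟩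
    rw [idx, Fin.val_ofNat]
    exact Nat.mod_eq_of_lt (h2.trans hlen)
  obtain ⟨hs1, hs2⟩ := hi s hs
  obtain ⟨ht1, ht2⟩ := hi t ht
  rw [e1, hs1, ht1] at h1
  have h3 := hD _ (X.adm b) _ _ hs2 ht2
  have h4 := hf _ (X.adm b) _ _ hs2 ht2
  rw [List.getElem_idxOf, List.getElem_idxOf] at h3 h4
  rw [h3, X.img, X.crd] at h1
  rw [X.crd] at h4
  refine ⟨h1.1, ?_⟩
  rw [h1.2]
  push_cast
  linarith

theorem query_out (D : DataStructure n S W) (hD : D.Correct) {C T : ℝ} (hf : D.Fast C T)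
    (hF : Admissible N F) (X : Dec N n B F) (i j : ℕ) (hi : i < F.length) (hj : j < F.length) :
    (query D i j : GAlg (Adr N n B S) (Val N B W) (Finset (Fin N))).out (memF D hF X) =
      F[i] ∩ F[j] := by
  classical
  have hs : F[i] ∈ F := List.getElem_mem hi
  have ht : F[j] ∈ F := List.getElem_mem hj
  unfold query finish
  simp only [out_bind]
  rw [out_headAt_mem D hF X i hi, out_headAt_mem D hF X j hj]
  simp only
  have h1 := out_readSet D hF X ⟨i, hi⟩
  have h2 := out_readSet D hF X ⟨j, hj⟩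
  simp only [List.get_eq_getElem] at h1 h2
  rw [h1, h2]
  simp only [out]
  ext u
  rw [Finset.mem_union, mem_unionL, Finset.mem_inter]
  simp only [freq, Finset.mem_filter, Finset.mem_univ, true_and, inl_mem_ents, List.mem_map,
    Finset.mem_toList]
  constructor
  · rintro (⟨⟨h3, -⟩, h4, -⟩ | ⟨_, ⟨⟨b, a, a'⟩, hq, rfl⟩, hu⟩)
    · exact ⟨h3, h4⟩
    · rw [mem_common] at hq
      obtain ⟨⟨-, h5⟩, -, h6⟩ := hq
      simp only at h5 h6
      subst h5; subst h6
      rw [(block_spec D hD hf hF X hs ht b).1, Finset.mem_inter, Finset.mem_inter] at hu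
      exact hu.1
  · rintro ⟨h3, h4⟩
    rcases X.cover _ hs u h3 with h | h
    · exact Or.inl ⟨⟨h3, h⟩, h4, h⟩
    · right
      refine ⟨_, ⟨(X.β u, idx X (X.β u) F[i], idx X (X.β u) F[j]), ?_, rfl⟩, ?_⟩
      · rw [mem_common]
        exact ⟨⟨⟨u, Finset.mem_inter.2 ⟨h3, h⟩⟩, rfl⟩, ⟨u, Finset.mem_inter.2 ⟨h4, h⟩⟩, rfl⟩
      · rw [(block_spec D hD hf hF X hs ht _).1]
        exact Finset.mem_inter.2 ⟨Finset.mem_inter.2 ⟨h3, h4⟩, h⟩

theorem sum_blocks_le (X : Dec N n B F) (s : Finset (Fin N)) (K : Finset (Fin (B + 1))) :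
    ∑ b ∈ K, (s ∩ X.V b).card ≤ s.card := by
  classical
  rw [← Finset.card_biUnion]
  · apply Finset.card_le_card
    intro u hu
    obtain ⟨b, -, hb⟩ := Finset.mem_biUnion.1 hu
    exact (Finset.mem_inter.1 hb).1
  · intro b _ b' _ hbb
    rw [Function.onFun, Finset.disjoint_left]
    intro u hu hu'
    apply hbb
    rw [← X.hVβ b u (Finset.mem_inter.1 hu).2, X.hVβ b' u (Finset.mem_inter.1 hu').2]

theorem query_probes (D : DataStructure n S W) (hD : D.Correct) {C T : ℝ} (hC : 0 ≤ C)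
    (hT : 0 ≤ T) (hf : D.Fast C T)
    (hF : Admissible N F) (X : Dec N n B F) (i j : ℕ) (hi : i < F.length) (hj : j < F.length) :
    (((query D i j : GAlg (Adr N n B S) (Val N B W) (Finset (Fin N))).probes (memF D hF X) : ℕ) :
      ℝ) ≤ 2 + 2 * (2 * B + 1) + (B + 1) * (1 + C * T) +
        (C + 1) * ((F[i] ∩ F[j]).card : ℝ) := by
  classical
  have hs : F[i] ∈ F := List.getElem_mem hi
  have ht : F[j] ∈ F := List.getElem_mem hj
  unfold query finish
  simp only [probes_bind, probes_headAt]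
  rw [out_headAt_mem D hF X i hi, out_headAt_mem D hF X j hj]
  simp only
  have h1 := out_readSet D hF X ⟨i, hi⟩
  have h2 := out_readSet D hF X ⟨j, hj⟩
  simp only [List.get_eq_getElem] at h1 h2
  rw [h1, h2]
  simp only [probes, add_zero]
  have h3 : (readSet (pos F ⟨i, hi⟩) (ents X F[i]).card :
      GAlg (Adr N n B S) (Val N B W) (Finset (Ent N B))).probes (memF D hF X) ≤ 2 * B + 1 :=
    (probes_readSet _ _ _).trans (card_ents_le' X _)
  have h4 : (readSet (pos F ⟨j, hj⟩) (ents X F[j]).card :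
      GAlg (Adr N n B S) (Val N B W) (Finset (Ent N B))).probes (memF D hF X) ≤ 2 * B + 1 :=
    (probes_readSet _ _ _).trans (card_ents_le' X _)
  rw [probes_unionL, List.map_map, Finset.sum_map_toList]
  -- the common blocks
  set K : Finset (Fin (B + 1)) := Finset.univ.filter (fun b =>
    (F[i] ∩ X.V b).Nonempty ∧ (F[j] ∩ X.V b).Nonempty) with hK
  have hcom : common (ents X F[i]) (ents X F[j]) =
      K.image (fun b => (b, idx X b F[i], idx X b F[j])) := by
    ext ⟨b, a, a'⟩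
    rw [mem_common, Finset.mem_image]
    simp only [hK, Finset.mem_filter, Finset.mem_univ, true_and, Prod.mk.injEq]
    constructor
    · rintro ⟨⟨h5, rfl⟩, h6, rfl⟩
      exact ⟨b, ⟨h5, h6⟩, rfl, rfl, rfl⟩
    · rintro ⟨b', ⟨h5, h6⟩, rfl, rfl, rfl⟩
      exact ⟨⟨h5, rfl⟩, h6, rfl⟩
  rw [hcom, Finset.sum_image (fun b _ b' _ h => (Prod.mk.inj h).1)]
  push_cast
  have h5 : ∑ b ∈ K, (((blockQ D (b, idx X b F[i], idx X b F[j])).probes (memF D hF X) : ℕ) : ℝ)
      ≤ ∑ b ∈ K, ((1 + C * T) + (C + 1) * (((F[i] ∩ F[j]) ∩ X.V b).card : ℝ)) := by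
    apply Finset.sum_le_sum
    intro b _
    have := (block_spec D hD hf hF X hs ht b).2
    linarith
  have h6 : ∑ b ∈ K, ((1 + C * T) + (C + 1) * (((F[i] ∩ F[j]) ∩ X.V b).card : ℝ)) ≤
      (B + 1) * (1 + C * T) + (C + 1) * ((F[i] ∩ F[j]).card : ℝ) := by
    rw [Finset.sum_add_distrib, Finset.sum_const, nsmul_eq_mul, ← Finset.mul_sum]
    have h7 : (K.card : ℝ) ≤ B + 1 := by
      have : K.card ≤ B + 1 := (Finset.card_le_univ _).trans (by rw [Fintype.card_fin])
      exact_mod_cast this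
    have h8 : (∑ b ∈ K, (((F[i] ∩ F[j]) ∩ X.V b).card : ℝ)) ≤ ((F[i] ∩ F[j]).card : ℝ) := by
      exact_mod_cast sum_blocks_le X (F[i] ∩ F[j]) K
    have h9 : 0 ≤ 1 + C * T := by positivity
    have h10 : 0 ≤ C + 1 := by positivity
    exact add_le_add (mul_le_mul_of_nonneg_right h7 h9) (mul_le_mul_of_nonneg_left h8 h10)
  have h3' : ((readSet (pos F ⟨i, hi⟩) (ents X F[i]).card :
      GAlg (Adr N n B S) (Val N B W) (Finset (Ent N B))).probes (memF D hF X) : ℝ) ≤
      2 * B + 1 := by exact_mod_cast h3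
  have h4' : ((readSet (pos F ⟨j, hj⟩) (ents X F[j]).card :
      GAlg (Adr N n B S) (Val N B W) (Finset (Ent N B))).probes (memF D hF X) : ℝ) ≤
      2 * B + 1 := by exact_mod_cast h4
  simp only [Function.comp_apply]
  linarith

/-- **The block construction.** -/
theorem exists_big (n h B : ℕ) (hh : 0 < h) (hB : 0 < B) (hn : 2 * h ≤ n) {S W : ℕ}
    (D : DataStructure n S W) (hD : D.Correct) {C T : ℝ} (hC : 0 ≤ C) (hT : 0 ≤ T)
    (hf : D.Fast C T) :
    ∃ (S' W' : ℕ) (D' : DataStructure (B * h) S' W'), D'.Correct ∧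
      S' = (B * h + 2) + B * h + ((B + 1) + ((B + 1) * n + (B + 1) * S)) ∧
      W' = ((B * h + 1) * (B * h + 1) + (B * h + (B + 1) * (B * h + 3))) +
        ((B * h + 3) + (B * h + W)) ∧
      ∀ F, Admissible (B * h) F → ∀ (i j : ℕ) (hi : i < F.length) (hj : j < F.length),
        (((D'.query F.length i j).probes (D'.memory F) : ℕ) : ℝ) ≤
          2 + 2 * (2 * B + 1) + (B + 1) * (1 + C * T) + (C + 1) * ((F[i] ∩ F[j]).card : ℝ) := by
  classical
  let A := Adr (B * h) n B S
  let V := Val (B * h) B W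
  let eA : A ≃ Fin (Fintype.card A) := Fintype.equivFin A
  let eV : V ≃ Fin (Fintype.card V) := Fintype.equivFin V
  let mem : List (Finset (Fin (B * h))) → A → V := fun F =>
    if hF : Admissible (B * h) F then
      memF D hF (Classical.choice (exists_dec (B * h) n B h hh hB hn rfl F hF))
    else fun _ => Sum.inl (Sum.inl (0, 0))
  let D' : DataStructure (B * h) (Fintype.card A) (Fintype.card V) :=
    { memory := fun F c => eV (mem F (eA.symm c))
      query := fun _ i j => (query D i j : GAlg A V (Finset (Fin (B * h)))).toAlg eA eV }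
  refine ⟨Fintype.card A, Fintype.card V, D', ?_, ?_, ?_, ?_⟩
  · intro F hF i j hi hj
    change ((query D i j : GAlg A V (Finset (Fin (B * h)))).toAlg eA eV).out
      (fun c => eV (mem F (eA.symm c))) = _
    rw [out_toAlg]
    simp only [mem, dif_pos hF]
    exact query_out D hD hf hF _ i j hi hj
  · simp [A, Adr]
  · simp [V, Val, Ent]
  · intro F hF i j hi hj
    change ((((query D i j : GAlg A V (Finset (Fin (B * h)))).toAlg eA eV).probes
      (fun c => eV (mem F (eA.symm c))) : ℕ) : ℝ) ≤ _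
    rw [probes_toAlg]
    simp only [mem, dif_pos hF]
    exact query_probes D hD hC hT hf hF _ i j hi hj

end Pool.Agent.Q84.SI
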