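import Pool.Agent.Q84.SI.Asym

/-!
# Transfer of lower bounds
-/

set_option autoImplicit false

namespace Pool.Agent.Q84.SI

open Pool.Agent.W964.Si Filter

/-- Every data structure with words of `b log N` bits and at most `C (T + op)` probes has
`N ^ 2 ≤ S T ℓ`. -/
def Bound (b : ℕ) (C : ℝ) (N : ℕ) (T ℓ : ℝ) : Prop :=
  ∀ S W : ℕ, W ≤ N ^ b → ∀ D : DataStructure N S W, D.Correct → D.Fast C T →
    (N : ℝ) ^ 2 ≤ S * T * ℓ

theorem transfer {δ : ℝ} (h0 : 0 < δ) (h1 : δ < 1) (b : ℕ) (C : ℝ) :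
    ∀ (n : ℕ) (T : ℝ), 54 ≤ n → 1 ≤ T → T ≤ (n : ℝ) ^ (1 - δ) →
      ∃ N : ℕ, n ≤ 3 * N ∧ (N : ℝ) ≤ (n : ℝ) ^ (1 / δ) ∧
        ∀ ℓ : ℝ, 0 ≤ ℓ → 24 * ℓ ≤ (N : ℝ) ^ δ →
          Bound (2 * b + 4) (60 + 12 * max C 0) N ((N : ℝ) ^ (1 - δ)) ℓ → Bound b C n T (36 * ℓ) := by
  intro n T hn hT hTn
  obtain ⟨B, hB, p1, p2, p3⟩ := params h0 h1 n (by omega) T hT hTn
  have hh : 0 < n / 2 := by omega
  have hn3 : n ≤ 3 * (n / 2) := by omega
  have hBN : B ≤ B * (n / 2) := Nat.le_mul_of_pos_right _ hh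
  have hhN : n / 2 ≤ B * (n / 2) := Nat.le_mul_of_pos_left _ hB
  refine ⟨B * (n / 2), by omega, p3, ?_⟩
  intro ℓ hℓ hℓ2 hbd S W hW D hD hf
  set Cp : ℝ := max C 0 with hCp
  have hCp0 : 0 ≤ Cp := le_max_right _ _
  have hf' : D.Fast Cp T := by
    intro F hF i j hi hj
    refine (hf F hF i j hi hj).trans ?_
    apply mul_le_mul_of_nonneg_right (le_max_left _ _)
    positivity
  obtain ⟨S', W', D', hD', hS', hW', hprobes⟩ := exists_big n (n / 2) B hh hB (by omega) D hD hCp0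
    (by linarith) hf'
  have hNpos : 0 < B * (n / 2) := by positivity
  have hWle : W' ≤ (B * (n / 2)) ^ (2 * b + 4) := by
    rw [hW']
    exact contents_le n B b W hB (by omega) hW (by omega)
  have hBr : (1 : ℝ) ≤ B := by exact_mod_cast hB
  have hT0 : 0 < T := by linarith
  have hBT : (1 : ℝ) ≤ B * T := by nlinarith
  have hBT2 : (B : ℝ) ≤ B * T := by nlinarith
  have hfast : D'.Fast (60 + 12 * Cp) (((B * (n / 2) : ℕ) : ℝ) ^ (1 - δ)) := by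
    intro F hF i j hi hj
    refine (hprobes F hF i j hi hj).trans ?_
    have hop : (0 : ℝ) ≤ ((F[i] ∩ F[j]).card : ℝ) := by positivity
    have e1 : 2 + 2 * (2 * (B : ℝ) + 1) ≤ 8 * (B * T) := by nlinarith
    have e2 : ((B : ℝ) + 1) * (1 + Cp * T) ≤ 2 * (1 + Cp) * (B * T) := by
      have : (1 : ℝ) + Cp * T ≤ (1 + Cp) * T := by nlinarith
      calc ((B : ℝ) + 1) * (1 + Cp * T) ≤ (2 * B) * ((1 + Cp) * T) := by
            apply mul_le_mul (by linarith) this (by positivity) (by positivity)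
        _ = _ := by ring
    have e3 : (10 + 2 * Cp) * ((B : ℝ) * T) ≤
        (10 + 2 * Cp) * (6 * ((B * (n / 2) : ℕ) : ℝ) ^ (1 - δ)) :=
      mul_le_mul_of_nonneg_left p1 (by positivity)
    have e4 : (Cp + 1) * ((F[i] ∩ F[j]).card : ℝ) ≤
        (60 + 12 * Cp) * ((F[i] ∩ F[j]).card : ℝ) :=
      mul_le_mul_of_nonneg_right (by linarith) hop
    nlinarith
  have key := hbd S' W' hWle D' hD' hfast
  -- the space
  have hS'le : (S' : ℝ) ≤ 12 * ((B * (n / 2) : ℕ) : ℝ) + 2 * B * S := by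
    have : S' ≤ 12 * (B * (n / 2)) + 2 * B * S := by
      rw [hS']
      have e1 : (B + 1) * n ≤ 6 * (B * (n / 2)) := by
        calc (B + 1) * n ≤ (2 * B) * (3 * (n / 2)) := Nat.mul_le_mul (by omega) hn3
          _ = _ := by ring
      have e2 : (B + 1) * S ≤ 2 * B * S := Nat.mul_le_mul_right _ (by omega)
      omega
    exact_mod_cast this
  set N : ℕ := B * (n / 2) with hN
  have hNr : (0 : ℝ) < N := by exact_mod_cast hNpos
  have hP0 : (0 : ℝ) < (N : ℝ) ^ (1 - δ) := Real.rpow_pos_of_pos hNr _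
  have e1 : (N : ℝ) ^ 2 ≤ (12 * N + 2 * B * S) * (N : ℝ) ^ (1 - δ) * ℓ :=
    key.trans (by gcongr)
  have e2 : 12 * (N : ℝ) * (N : ℝ) ^ (1 - δ) * ℓ ≤ (N : ℝ) ^ 2 / 2 := by
    have e3 : (N : ℝ) ^ (1 - δ) * (N : ℝ) ^ δ = N := by
      rw [← Real.rpow_add hNr]; simp
    calc 12 * (N : ℝ) * (N : ℝ) ^ (1 - δ) * ℓ = (N : ℝ) * (N : ℝ) ^ (1 - δ) * (24 * ℓ) / 2 := by
          ring
      _ ≤ (N : ℝ) * (N : ℝ) ^ (1 - δ) * (N : ℝ) ^ δ / 2 := by gcongr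
      _ = (N : ℝ) ^ 2 / 2 := by rw [mul_assoc, e3]; ring
  have e4 : 2 * (B : ℝ) * S * (N : ℝ) ^ (1 - δ) * ℓ ≤ 2 * B * S * (B * T) * ℓ := by gcongr
  have e5 : (N : ℝ) ^ 2 / 2 ≤ 2 * B * S * (B * T) * ℓ := by nlinarith
  have e6 : (B : ℝ) * n ≤ 3 * N := by
    have : B * n ≤ 3 * N := by
      calc B * n ≤ B * (3 * (n / 2)) := Nat.mul_le_mul_left _ hn3
        _ = 3 * N := by rw [hN]; ring
    exact_mod_cast this
  have e7 : (B : ℝ) ^ 2 * (n : ℝ) ^ 2 ≤ 9 * (N : ℝ) ^ 2 := by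
    have : ((B : ℝ) * n) ^ 2 ≤ (3 * N) ^ 2 := by gcongr
    nlinarith
  have hB2 : (0 : ℝ) < (B : ℝ) ^ 2 := by positivity
  have e8 : (B : ℝ) ^ 2 * (n : ℝ) ^ 2 ≤ (B : ℝ) ^ 2 * (S * T * (36 * ℓ)) := by
    nlinarith
  exact le_of_mul_le_mul_left e8 hB2

end Pool.Agent.Q84.SI
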